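import Pool.Agent.MK3.Defs

/-!
Two-path Menger theorem for finite digraphs in a walk / vertex-set form (Goering's induction on arcs).
`WIn R P a b` : there is a walk `a → … → b` of the relation `R` all of whose vertices lie in `P`.
-/

set_option autoImplicit false

namespace Pool.Agent.MK3

namespace Mg

open Relation

variable {V : Type*}

/-- a walk from `a` to `b` all of whose vertices lie in `P` -/
def WIn (R : V → V → Prop) (P : Set V) (a b : V) : Prop :=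
  a ∈ P ∧ ReflTransGen (fun u v => R u v ∧ v ∈ P) a b

theorem WIn.refl {R : V → V → Prop} {P : Set V} {a : V} (h : a ∈ P) : WIn R P a a :=
  ⟨h, ReflTransGen.refl⟩

theorem WIn.left {R : V → V → Prop} {P : Set V} {a b : V} (h : WIn R P a b) : a ∈ P := h.1

theorem WIn.right {R : V → V → Prop} {P : Set V} {a b : V} (h : WIn R P a b) : b ∈ P := by
  rcases ReflTransGen.cases_tail h.2 with h' | ⟨c, _, hc⟩
  · exact h' ▸ h.1
  · exact hc.2

theorem WIn.tail {R : V → V → Prop} {P : Set V} {a b c : V} (h : WIn R P a b) (hR : R b c)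
    (hc : c ∈ P) : WIn R P a c := ⟨h.1, h.2.tail ⟨hR, hc⟩⟩

theorem WIn.head {R : V → V → Prop} {P : Set V} {a b c : V} (ha : a ∈ P) (hR : R a b)
    (h : WIn R P b c) : WIn R P a c := ⟨ha, ReflTransGen.head ⟨hR, h.1⟩ h.2⟩

theorem WIn.trans {R : V → V → Prop} {P : Set V} {a b c : V} (h : WIn R P a b)
    (h' : WIn R P b c) : WIn R P a c := ⟨h.1, h.2.trans h'.2⟩

theorem WIn.single {R : V → V → Prop} {P : Set V} {a b : V} (ha : a ∈ P) (hR : R a b)
    (hb : b ∈ P) : WIn R P a b := (WIn.refl ha).tail hR hb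

theorem WIn.mono {R R' : V → V → Prop} {P P' : Set V} {a b : V} (h : WIn R P a b)
    (hR : ∀ u v, u ∈ P → v ∈ P → R u v → R' u v) (hP : P ⊆ P') : WIn R' P' a b := by
  obtain ⟨ha, h⟩ := h
  refine ⟨hP ha, ?_⟩
  induction h using ReflTransGen.head_induction_on with
  | refl => exact ReflTransGen.refl
  | head h1 _ ih => exact ReflTransGen.head ⟨hR _ _ ha h1.2 h1.1, hP h1.2⟩ (ih h1.2)

theorem WIn.induction {R : V → V → Prop} {P : Set V} {b : V} {motive : V → Prop}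
    (hb : b ∈ P → motive b)
    (hstep : ∀ a c, a ∈ P → R a c → WIn R P c b → motive c → motive a)
    {a : V} (h : WIn R P a b) : motive a := by
  obtain ⟨ha, h⟩ := h
  induction h using ReflTransGen.head_induction_on with
  | refl => exact hb ha
  | head h1 h2 ih => exact hstep _ _ ha h1.1 ⟨h1.2, h2⟩ (ih h1.2)

theorem WIn.induction' {R : V → V → Prop} {P : Set V} {a : V} {motive : V → Prop}
    (hb : a ∈ P → motive a)
    (hstep : ∀ b c, WIn R P a b → R b c → c ∈ P → motive b → motive c)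
    {b : V} (h : WIn R P a b) : motive b := by
  obtain ⟨ha, h⟩ := h
  induction h with
  | refl => exact hb ha
  | tail h1 h2 ih => exact hstep _ _ ⟨ha, h1⟩ h2.1 h2.2 ih

/-- A walk that leaves the arc `(x,y)` out of account: either it never uses it, or it reaches `x`
without using it. -/
theorem WIn.cut_arc {R : V → V → Prop} {P : Set V} {a b : V} (x y : V) (h : WIn R P a b) :
    WIn (fun u v => R u v ∧ ¬ (u = x ∧ v = y)) P a b ∨
      (WIn (fun u v => R u v ∧ ¬ (u = x ∧ v = y)) P a x ∧ R x y ∧ y ∈ P ∧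
        WIn (fun u v => R u v ∧ ¬ (u = x ∧ v = y)) P y b) := by
  classical
  refine WIn.induction' (motive := fun b =>
    WIn (fun u v => R u v ∧ ¬ (u = x ∧ v = y)) P a b ∨
      (WIn (fun u v => R u v ∧ ¬ (u = x ∧ v = y)) P a x ∧ R x y ∧ y ∈ P ∧
        WIn (fun u v => R u v ∧ ¬ (u = x ∧ v = y)) P y b)) ?_ ?_ h
  · intro ha
    exact Or.inl (WIn.refl ha)
  · intro b c h1 hR hc ih
    by_cases hx : b = x ∧ c = y
    · obtain ⟨rfl, rfl⟩ := hx
      rcases ih with ih | ih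
      · exact Or.inr ⟨ih, hR, hc, WIn.refl hc⟩
      · exact Or.inr ⟨ih.1, hR, hc, WIn.refl hc⟩
    · rcases ih with ih | ih
      · exact Or.inl (ih.tail ⟨hR, hx⟩ hc)
      · exact Or.inr ⟨ih.1, ih.2.1, ih.2.2.1, ih.2.2.2.tail ⟨hR, hx⟩ hc⟩

/-- a walk from `A` to `B` inside `P` -/
def SIn (R : V → V → Prop) (P A B : Set V) : Prop := ∃ a ∈ A, ∃ b ∈ B, WIn R P a b

theorem SIn.mono {R R' : V → V → Prop} {P P' A A' B B' : Set V} (h : SIn R P A B)
    (hR : ∀ u v, u ∈ P → v ∈ P → R u v → R' u v) (hP : P ⊆ P') (hA : A ⊆ A') (hB : B ⊆ B') :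
    SIn R' P' A' B' := by
  obtain ⟨a, ha, b, hb, h⟩ := h
  exact ⟨a, hA ha, b, hB hb, h.mono hR hP⟩

/-- first visit to a set `Q`: a walk from `a` to `b` either avoids `Q`, or reaches some `q ∈ Q`
using only arcs with tail outside `Q` and a walk continues to `b`. -/
theorem WIn.first {R : V → V → Prop} {P : Set V} {a b : V} (Q : Set V) (h : WIn R P a b) :
    WIn R (P \ Q) a b ∨
      ∃ q ∈ Q, WIn (fun u v => R u v ∧ u ∉ Q) P a q ∧ WIn R P q b := by
  classical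
  refine WIn.induction (motive := fun a => WIn R (P \ Q) a b ∨
      ∃ q ∈ Q, WIn (fun u v => R u v ∧ u ∉ Q) P a q ∧ WIn R P q b) ?_ ?_ h
  · intro hb
    by_cases hq : b ∈ Q
    · exact Or.inr ⟨b, hq, WIn.refl hb, WIn.refl hb⟩
    · exact Or.inl (WIn.refl ⟨hb, hq⟩)
  · intro a c ha hR hc ih
    by_cases hq : a ∈ Q
    · exact Or.inr ⟨a, hq, WIn.refl ha, WIn.head ha hR hc⟩
    · rcases ih with ih | ⟨q, hq', h1, h2⟩
      · exact Or.inl (WIn.head ⟨ha, hq⟩ hR ih)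
      · exact Or.inr ⟨q, hq', WIn.head ha ⟨hR, hq⟩ h1, h2⟩

/-- last visit to a set `Q`. -/
theorem WIn.last {R : V → V → Prop} {P : Set V} {a b : V} (Q : Set V) (h : WIn R P a b) :
    WIn R (P \ Q) a b ∨
      ∃ q ∈ Q, WIn R P a q ∧ WIn (fun u v => R u v ∧ v ∉ Q) P q b := by
  classical
  refine WIn.induction' (motive := fun b => WIn R (P \ Q) a b ∨
      ∃ q ∈ Q, WIn R P a q ∧ WIn (fun u v => R u v ∧ v ∉ Q) P q b) ?_ ?_ h
  · intro hb
    by_cases hq : a ∈ Q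
    · exact Or.inr ⟨a, hq, WIn.refl hb, WIn.refl hb⟩
    · exact Or.inl (WIn.refl ⟨hb, hq⟩)
  · intro b c hb hR hc ih
    by_cases hq : c ∈ Q
    · exact Or.inr ⟨c, hq, hb.tail hR hc, WIn.refl hc⟩
    · rcases ih with ih | ⟨q, hq', h1, h2⟩
      · exact Or.inl (ih.tail hR ⟨hc, hq⟩)
      · exact Or.inr ⟨q, hq', h1, h2.tail ⟨hR, hq⟩ hc⟩

theorem WIn.flip {R : V → V → Prop} {P : Set V} {a b : V} (h : WIn R P a b) :
    WIn (fun u v => R v u) P b a := by
  refine WIn.induction (motive := fun a => WIn (fun u v => R v u) P b a) ?_ ?_ h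
  · intro hb; exact WIn.refl hb
  · intro a c ha hR _ ih
    exact ih.tail hR ha

theorem SIn.flip {R : V → V → Prop} {P A B : Set V} (h : SIn R P A B) :
    SIn (fun u v => R v u) P B A := by
  obtain ⟨a, ha, b, hb, h⟩ := h
  exact ⟨b, hb, a, ha, h.flip⟩

/-- the statement of the two-path theorem for one relation -/
def TwoD (R : V → V → Prop) : Prop :=
  ∀ A B : Set V, SIn R Set.univ A B → (∀ z, SIn R {z}ᶜ A B) →
    ∃ P1 P2 : Set V, Disjoint P1 P2 ∧ SIn R P1 A B ∧ SIn R P2 A B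

theorem TwoD.flip {R : V → V → Prop} (h : TwoD R) : TwoD (fun u v => R v u) := by
  intro A B h0 h1
  obtain ⟨P1, P2, hd, h3, h4⟩ := h B A h0.flip (fun z => (h1 z).flip)
  exact ⟨P1, P2, hd, h3.flip, h4.flip⟩

theorem half {R R' : V → V → Prop} (x s : V) (hRR : ∀ u v, R u v → u ≠ x → R' u v)
    (ih : TwoD R') (A B : Set V)
    (h1 : ∀ z, SIn R {z}ᶜ A B) (hs : ¬ SIn R' {s}ᶜ A B) (hxs : x ≠ s) :
    ∃ U1 U2 : Set V, Disjoint U1 U2 ∧ s ∉ U2 ∧ (∀ v ∈ U1, v ≠ s → ∃ a ∈ A, WIn R' {s}ᶜ a v) ∧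
      (∀ v ∈ U2, ∃ a ∈ A, WIn R' {s}ᶜ a v) ∧ (∃ a ∈ A, WIn R' U1 a s) ∧
      (∃ a ∈ A, WIn R' U2 a x) := by
  classical
  have c1 : ∀ z, SIn R' {z}ᶜ A {s, x} := by
    intro z
    obtain ⟨a, ha, b, hb, h⟩ := h1 z
    rcases h.first {s, x} with h | ⟨q, hq, h2, _⟩
    · exfalso
      apply hs
      refine ⟨a, ha, b, hb, h.mono ?_ ?_⟩
      · intro u v hu _ hR
        refine hRR u v hR ?_
        rintro rfl
        exact hu.2 (by simp)
      · intro u hu
        have := hu.2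
        simp only [Set.mem_insert_iff, Set.mem_singleton_iff, not_or] at this
        exact this.1
    · refine ⟨a, ha, q, hq, h2.mono ?_ (le_refl _)⟩
      intro u v _ _ hR
      refine hRR u v hR.1 ?_
      rintro rfl
      exact hR.2 (by simp)
  have c0 : SIn R' Set.univ A {s, x} :=
    (c1 x).mono (fun _ _ _ _ h => h) (Set.subset_univ _) (le_refl _) (le_refl _)
  obtain ⟨U1, U2, hd, h3, h4⟩ := ih A {s, x} c0 c1
  -- trimming
  have trim : ∀ (U : Set V) (q : V), (q = s ∨ s ∉ U) → ∀ a ∈ A, WIn R' U a q →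
      WIn R' {v | v ∈ U ∧ (v ≠ s → ∃ a ∈ A, WIn R' {s}ᶜ a v)} a q := by
    intro U q hq a ha h
    have key : ∀ c, WIn R' U c q → (c ≠ s → ∃ a ∈ A, WIn R' {s}ᶜ a c) →
        WIn R' {v | v ∈ U ∧ (v ≠ s → ∃ a ∈ A, WIn R' {s}ᶜ a v)} c q := by
      intro c hc
      refine WIn.induction (motive := fun c => (c ≠ s → ∃ a ∈ A, WIn R' {s}ᶜ a c) →
        WIn R' {v | v ∈ U ∧ (v ≠ s → ∃ a ∈ A, WIn R' {s}ᶜ a v)} c q) ?_ ?_ hc
      · intro hqU h5
        exact WIn.refl ⟨hqU, h5⟩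
      · intro c d hcU hR _ ih h5
        by_cases hcs : c = s
        · rcases hq with hq | hq
          · subst hcs; subst hq
            exact WIn.refl ⟨hcU, h5⟩
          · exact absurd (hcs ▸ hcU) hq
        · obtain ⟨a, ha, h6⟩ := h5 hcs
          exact WIn.head ⟨hcU, h5⟩ hR (ih fun hds => ⟨a, ha, h6.tail hR hds⟩)
    exact key a h (fun has => ⟨a, ha, WIn.refl has⟩)
  have main : ∀ U1 U2 : Set V, Disjoint U1 U2 → (∃ a ∈ A, WIn R' U1 a s) →
      (∃ a ∈ A, WIn R' U2 a x) →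
      ∃ U1 U2 : Set V, Disjoint U1 U2 ∧ s ∉ U2 ∧ (∀ v ∈ U1, v ≠ s → ∃ a ∈ A, WIn R' {s}ᶜ a v) ∧
      (∀ v ∈ U2, ∃ a ∈ A, WIn R' {s}ᶜ a v) ∧ (∃ a ∈ A, WIn R' U1 a s) ∧
      (∃ a ∈ A, WIn R' U2 a x) := by
    rintro U1 U2 hd ⟨a1, ha1, h5⟩ ⟨a2, ha2, h6⟩
    have hsU2 : s ∉ U2 := fun h => Set.disjoint_left.1 hd h5.right h
    have h7 := trim U1 s (Or.inl rfl) a1 ha1 h5
    have h8 := trim U2 x (Or.inr hsU2) a2 ha2 h6
    refine ⟨_, _, ?_, ?_, ?_, ?_, ⟨a1, ha1, h7⟩, ⟨a2, ha2, h8⟩⟩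
    · exact Set.disjoint_left.2 fun v hv hv' => Set.disjoint_left.1 hd hv.1 hv'.1
    · exact fun h => hsU2 h.1
    · exact fun v hv hvs => hv.2 hvs
    · exact fun v hv => hv.2 (fun h => hsU2 (h ▸ hv.1))
  obtain ⟨a1, ha1, q1, hq1, h3⟩ := h3
  obtain ⟨a2, ha2, q2, hq2, h4⟩ := h4
  simp only [Set.mem_insert_iff, Set.mem_singleton_iff] at hq1 hq2
  rcases hq1 with rfl | rfl <;> rcases hq2 with rfl | rfl
  · exact absurd h4.right (Set.disjoint_left.1 hd h3.right)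
  · exact main U1 U2 hd ⟨a1, ha1, h3⟩ ⟨a2, ha2, h4⟩
  · exact main U2 U1 hd.symm ⟨a2, ha2, h4⟩ ⟨a1, ha1, h3⟩
  · exact absurd h4.right (Set.disjoint_left.1 hd h3.right)

theorem twoD_of_card [Finite V] : ∀ (n : ℕ) (R : V → V → Prop),
    {p : V × V | R p.1 p.2}.ncard ≤ n → TwoD R := by
  classical
  intro n
  induction n with
  | zero =>
    intro R hR A B h0 h1
    have hno : ∀ u v, ¬ R u v := by
      intro u v huv
      have : {p : V × V | R p.1 p.2} = ∅ := (Set.ncard_eq_zero (Set.toFinite _)).1 (by omega)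
      have h2 : (u, v) ∈ {p : V × V | R p.1 p.2} := huv
      rw [this] at h2
      exact h2
    have triv : ∀ P, SIn R P A B → ∃ v ∈ A, v ∈ B ∧ v ∈ P := by
      rintro P ⟨a, ha, b, hb, h⟩
      rcases ReflTransGen.cases_head h.2 with h' | ⟨c, hc, _⟩
      · subst h'; exact ⟨a, ha, hb, h.1⟩
      · exact absurd hc.1 (hno _ _)
    obtain ⟨v1, hv1, hv1', _⟩ := triv _ h0
    obtain ⟨v2, hv2, hv2', hne⟩ := triv _ (h1 v1)
    refine ⟨{v1}, {v2}, ?_, ⟨v1, hv1, v1, hv1', WIn.refl rfl⟩, ⟨v2, hv2, v2, hv2', WIn.refl rfl⟩⟩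
    exact Set.disjoint_singleton.2 (fun h => hne h.symm)
  | succ n ih =>
    intro R hR A B h0 h1
    by_cases hne : ∃ x y, R x y
    swap
    · refine ih R ?_ A B h0 h1
      have : {p : V × V | R p.1 p.2} = ∅ := by
        ext p
        simp only [Set.mem_ofPred_eq, Set.mem_empty_iff_false, iff_false]
        exact fun hp => hne ⟨_, _, hp⟩
      rw [this]; simp
    obtain ⟨x, y, hxy⟩ := hne
    set R' : V → V → Prop := fun u v => R u v ∧ ¬ (u = x ∧ v = y) with hR'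
    have hcard : {p : V × V | R' p.1 p.2}.ncard ≤ n := by
      have : {p : V × V | R' p.1 p.2}.ncard < {p : V × V | R p.1 p.2}.ncard := by
        refine Set.ncard_lt_ncard ?_ (Set.toFinite _)
        refine ⟨fun p hp => hp.1, fun h => ?_⟩
        have h2 : (x, y) ∈ {p : V × V | R p.1 p.2} := hxy
        exact (h h2).2 ⟨rfl, rfl⟩
      omega
    have ih' : TwoD R' := ih R' hcard
    have hsub : ∀ u v, R' u v → R u v := fun u v h => h.1
    by_cases hall : ∀ z, SIn R' {z}ᶜ A B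
    · obtain ⟨P1, P2, hd, h3, h4⟩ := ih' A B ((hall x).mono (fun _ _ _ _ h => h)
        (Set.subset_univ _) (le_refl _) (le_refl _)) hall
      exact ⟨P1, P2, hd, h3.mono (fun _ _ _ _ h => hsub _ _ h) (le_refl _) (le_refl _) (le_refl _),
        h4.mono (fun _ _ _ _ h => hsub _ _ h) (le_refl _) (le_refl _) (le_refl _)⟩
    push Not at hall
    obtain ⟨s, hs⟩ := hall
    have hxs : x ≠ s ∧ y ≠ s := by
      obtain ⟨a, ha, b, hb, h⟩ := h1 s
      rcases h.cut_arc x y with h | ⟨h2, _, h3, _⟩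
      · exact absurd ⟨a, ha, b, hb, h⟩ hs
      · exact ⟨h2.right, h3⟩
    obtain ⟨U1, U2, hdU, hsU, hU1, hU2, ⟨a1, ha1, hw1⟩, ⟨a2, ha2, hw2⟩⟩ :=
      half x s (R := R) (R' := R') (fun u v h hu => ⟨h, fun h' => hu h'.1⟩) ih' A B h1 hs hxs.1
    obtain ⟨W1, W2, hdW, hsW, hW1, hW2, ⟨b1, hb1, hw3⟩, ⟨b2, hb2, hw4⟩⟩ :=
      half y s (R := fun u v => R v u) (R' := fun u v => R' v u)
        (fun u v h hu => ⟨h, fun h' => hu h'.2⟩) ih'.flip B A (fun z => (h1 z).flip)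
        (fun h => hs h.flip) hxs.2
    have hdis : ∀ v, (∃ a ∈ A, WIn R' {s}ᶜ a v) → (∃ b ∈ B, WIn (fun u v => R' v u) {s}ᶜ b v) →
        False := by
      rintro v ⟨a, ha, h⟩ ⟨b, hb, h'⟩
      exact hs ⟨a, ha, b, hb, h.trans h'.flip⟩
    have up : ∀ (P P' : Set V) (u v : V), P ⊆ P' → WIn R' P u v → WIn R P' u v := by
      intro P P' u v hP h
      exact h.mono (fun _ _ _ _ h => hsub _ _ h) hP
    refine ⟨U1 ∪ W1, U2 ∪ W2, ?_, ⟨a1, ha1, b1, hb1, ?_⟩, ⟨a2, ha2, b2, hb2, ?_⟩⟩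
    · rw [Set.disjoint_left]
      rintro v (hv | hv) (hv' | hv')
      · exact Set.disjoint_left.1 hdU hv hv'
      · exact hdis v (hU1 v hv (fun h => hsW (h ▸ hv'))) (hW2 v hv')
      · exact hdis v (hU2 v hv') (hW1 v hv (fun h => hsU (h ▸ hv')))
      · exact Set.disjoint_left.1 hdW hv hv'
    · exact (up _ _ _ _ Set.subset_union_left hw1).trans
        (up _ _ _ _ Set.subset_union_right hw3.flip)
    · exact ((up _ _ _ _ Set.subset_union_left hw2).tail hxy (Or.inr hw4.right)).trans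
        (up _ _ _ _ Set.subset_union_right hw4.flip)

/-- **Menger for two paths** (set form): if no vertex meets all walks from `A` to `B`, then there
are two disjoint vertex sets each containing a walk from `A` to `B`. -/
theorem two_disjoint [Finite V] (R : V → V → Prop) (A B : Set V) (h0 : SIn R Set.univ A B)
    (h1 : ∀ z, SIn R {z}ᶜ A B) :
    ∃ P1 P2 : Set V, Disjoint P1 P2 ∧ SIn R P1 A B ∧ SIn R P2 A B :=
  twoD_of_card _ R le_rfl A B h0 h1

theorem WIn.of_del {r : V → V → Prop} {z a b : V} (ha : a ≠ z)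
    (h : ReflTransGen (Del r z) a b) : WIn r {z}ᶜ a b := by
  refine ⟨ha, ?_⟩
  induction h with
  | refl => exact ReflTransGen.refl
  | tail _ h2 ih => exact ih.tail ⟨h2.1, h2.2.2⟩

theorem WIn.res {r : V → V → Prop} {P : Set V} {a b : V} (h : WIn r P a b) :
    ReflTransGen (Mader.Res r P) a b := by
  refine WIn.induction (motive := fun a => ReflTransGen (Mader.Res r P) a b) ?_ ?_ h
  · intro _; exact ReflTransGen.refl
  · intro a c ha hR hc ih
    exact ReflTransGen.head ⟨hR, ha, hc.left⟩ ih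

end Mg

open Relation Pool.Agent.Mader

variable {V : Type*}

theorem menger2 [Finite V] (r : V → V → Prop) (X Y : Set V)
    (h : ∀ z : V, ∃ x ∈ X, ∃ y ∈ Y, x ≠ z ∧ ReflTransGen (Del r z) x y) (hne : Nonempty V) :
    ∃ (P₁ P₂ : Set V) (x₁ x₂ y₁ y₂ : V), Disjoint P₁ P₂ ∧ x₁ ∈ X ∧ x₂ ∈ X ∧ y₁ ∈ Y ∧ y₂ ∈ Y ∧
      x₁ ∈ P₁ ∧ x₂ ∈ P₂ ∧ ReflTransGen (Res r P₁) x₁ y₁ ∧ ReflTransGen (Res r P₂) x₂ y₂ := by
  have h1 : ∀ z, Mg.SIn r {z}ᶜ X Y := by
    intro z
    obtain ⟨x, hx, y, hy, hxz, hw⟩ := h z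
    exact ⟨x, hx, y, hy, Mg.WIn.of_del hxz hw⟩
  obtain ⟨z⟩ := hne
  have h0 : Mg.SIn r Set.univ X Y :=
    (h1 z).mono (fun _ _ _ _ h => h) (Set.subset_univ _) (le_refl _) (le_refl _)
  obtain ⟨P1, P2, hd, ⟨x1, hx1, y1, hy1, h3⟩, ⟨x2, hx2, y2, hy2, h4⟩⟩ :=
    Mg.two_disjoint r X Y h0 h1
  exact ⟨P1, P2, x1, x2, y1, y2, hd, hx1, hx2, hy1, hy2, h3.left, h4.left, h3.res, h4.res⟩

end Pool.Agent.MK3
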