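import Pool.Agent.MK3.Defs

set_option autoImplicit false
set_option linter.unusedVariables false

namespace Pool.Agent.MK3

open List Relation Pool.Agent.Mader

variable {V : Type*}

theorem link_list {E : V → V → Prop} {I : Set V} {x y : V} (h : Link E I x y) :
    ∃ l : List V, (x :: (l ++ [y])).IsChain E ∧ l.Nodup ∧ ∀ z ∈ l, z ∈ I := by
  rcases h with e | ⟨p, hp, q, hq, h1, h2, h3⟩
  · exact ⟨[], by simpa using e, nodup_nil, by simp⟩
  · rcases exists_pth h2 with rfl | ⟨l, hl⟩
    · refine ⟨[p], ?_, by simp, by simpa using hp⟩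
      simp [h1, h3]
    · refine ⟨p :: (l ++ [q]), ?_, hl.2, ?_⟩
      · have hc : (p :: (l ++ [q])).IsChain E := hl.1.imp (fun a b hab => hab.1)
        have e1 : x :: (p :: (l ++ [q]) ++ [y]) = (x :: p :: l) ++ q :: [y] := by simp
        rw [e1, isChain_split]
        refine ⟨?_, by simpa using h3⟩
        have e2 : x :: p :: l ++ [q] = x :: (p :: (l ++ [q])) := by simp
        rw [e2, isChain_cons_cons]
        exact ⟨h1, hc⟩
      · intro z hz
        simp only [mem_cons, mem_append, not_mem_nil, or_false] at hz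
        rcases hz with rfl | hz | rfl
        · exact hp
        · exact hl.forall_int (P := fun z => z ∈ I) (fun a b hab => hab.2.2) z hz
        · exact hq

/-- lifting one arc -/
theorem lift_link {E E' : V → V → Prop} {S S' I : Set V} {u w : V}
    (h : HasK3 (AddA E u w) S) (hE : ∀ a b, a ∈ S → b ∈ S → a ≠ b → E a b → E' a b)
    (hl : Link E' I u w) (hI : Disjoint I S) (hS : S ⊆ S') (hIS : I ⊆ S') (hu : u ∈ S)
    (hw : w ∈ S) : HasK3 E' S' := by
  obtain ⟨l, hc, hn, hm⟩ := link_list hl
  exact HasK3.lift h hE l hc hn (fun z hz hzS => Set.disjoint_left.1 hI (hm z hz) hzS) hS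
    (fun z hz => hIS (hm z hz))

/-- lifting two arcs -/
theorem lift_two {E E' : V → V → Prop} {S S' I J : Set V} {u w u' w' : V}
    (h : HasK3 (AddA (AddA E u w) u' w') S)
    (hE : ∀ a b, a ∈ S → b ∈ S → a ≠ b → E a b → E' a b)
    (hl : Link E' I u w) (hl' : Link E' J u' w') (hI : Disjoint I S) (hJ : Disjoint J S)
    (hIJ : Disjoint I J) (hS : S ⊆ S') (hIS : I ⊆ S') (hJS : J ⊆ S') (hu : u ∈ S)
    (hw : w ∈ S) (hu' : u' ∈ S) (hw' : w' ∈ S) : HasK3 E' S' := by
  have h1 : HasK3 (AddA E' u w) (S ∪ J) := by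
    refine lift_link (I := J) h ?_ ?_ hJ Set.subset_union_left Set.subset_union_right hu' hw'
    · intro a b ha hb hab e
      rcases e with e | e
      · exact Or.inl (hE a b ha hb hab e)
      · exact Or.inr e
    · rcases hl' with e | ⟨p, hp, q, hq, h1, h2, h3⟩
      · exact Or.inl (Or.inl e)
      · refine Or.inr ⟨p, hp, q, hq, Or.inl h1, ?_, Or.inl h3⟩
        have hle : Res E' J ≤ Res (AddA E' u w) J := fun a b hab => ⟨Or.inl hab.1, hab.2⟩
        exact ReflTransGen.mono hle p q h2
  refine lift_link (I := I) h1 (fun a b _ _ _ e => e) hl ?_ (Set.union_subset hS hJS) hIS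
    (Or.inl hu) (Or.inl hw)
  rw [Set.disjoint_union_right]
  exact ⟨hI, hIJ⟩

/-- constructing a subdivision from six internally disjoint links -/
theorem of_links {E : V → V → Prop} {S : Set V} (b : Fin 3 → V) (I : Fin 3 → Fin 3 → Set V)
    (hb : Function.Injective b) (hbS : ∀ k, b k ∈ S)
    (hI : ∀ i j, i ≠ j → ∀ k, b k ∉ I i j) (hIS : ∀ i j, i ≠ j → I i j ⊆ S)
    (hd : ∀ i j k l, i ≠ j → k ≠ l → (i, j) ≠ (k, l) → Disjoint (I i j) (I k l))
    (hl : ∀ i j, i ≠ j → Link E (I i j) (b i) (b j)) : HasK3 E S := by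
  classical
  have key : ∀ i j, ∃ l : List V, i ≠ j → (b i :: (l ++ [b j])).IsChain E ∧ l.Nodup ∧
      ∀ z ∈ l, z ∈ I i j := by
    intro i j
    by_cases hij : i = j
    · exact ⟨[], fun h => absurd hij h⟩
    · obtain ⟨l, h1, h2, h3⟩ := link_list (hl i j hij)
      exact ⟨l, fun _ => ⟨h1, h2, h3⟩⟩
  choose l hl' using key
  have hbl : ∀ i j, i ≠ j → ∀ k, b k ∉ l i j := fun i j hij k hk =>
    hI i j hij k ((hl' i j hij).2.2 _ hk)
  refine ⟨b, fun i j => b i :: (l i j ++ [b j]), ?_⟩
  constructor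
  · exact hb
  · intro i j hij; exact (hl' i j hij).1
  · intro i j hij
    have hne : b i ≠ b j := fun e => hij (hb e)
    rw [nodup_cons, nodup_append]
    refine ⟨?_, (hl' i j hij).2.1, by simp, ?_⟩
    · simp only [mem_append, mem_cons, not_mem_nil, or_false, not_or]
      exact ⟨hbl i j hij i, hne⟩
    · intro z hz t ht
      simp only [mem_cons, not_mem_nil, or_false] at ht
      subst ht
      rintro rfl
      exact hbl i j hij j hz
  · intro i j hij; simp
  · intro i j hij
    rw [show b i :: (l i j ++ [b j]) = (b i :: l i j) ++ [b j] by simp,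
      getLast?_append_of_ne_nil _ (by simp)]
    rfl
  · intro i j k hij hk
    simp only [mem_cons, mem_append, not_mem_nil, or_false] at hk
    rcases hk with e | e | e
    · exact Or.inl (hb e)
    · exact absurd e (hbl i j hij k)
    · exact Or.inr (hb e)
  · intro i j k m v hij hkm hne hv1 hv2
    simp only [mem_cons, mem_append, not_mem_nil, or_false] at hv1 hv2
    rcases hv1 with e | e | e
    · exact ⟨i, e⟩
    · rcases hv2 with e' | e' | e'
      · exact ⟨k, e'⟩
      · exact absurd ((hl' k m hkm).2.2 v e') (Set.disjoint_left.1 (hd i j k m hij hkm hne)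
          ((hl' i j hij).2.2 v e))
      · exact ⟨m, e'⟩
    · exact ⟨j, e⟩
  · intro i j hij v hv
    simp only [mem_cons, mem_append, not_mem_nil, or_false] at hv
    rcases hv with e | e | e
    · rw [e]; exact hbS i
    · exact hIS i j hij ((hl' i j hij).2.2 v e)
    · rw [e]; exact hbS j

end Pool.Agent.MK3
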