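import Pool.Agent.MK3.Good
import Pool.Agent.MK3.ApiB
import Pool.Agent.MK3.Menger

set_option autoImplicit false

namespace Pool.Agent.MK3

open Relation Pool.Agent.Mader

variable {V : Type*}

/-- at most two out-arcs of `c` are used -/
theorem cA_out_two {E : V → V → Prop} {S : Set V} (h : HasK3 E S) (c : V) :
    ∃ b₁ b₂, HasK3 (fun p q => E p q ∧ (p = c → q = b₁ ∨ q = b₂)) S := by
  obtain ⟨β, L, h⟩ := h
  obtain ⟨b₁, b₂, h'⟩ := h.out_two c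
  exact ⟨b₁, b₂, β, L, h'⟩

theorem cA_first {E : V → V → Prop} {A : Set V} {c z b : V}
    (h : ReflTransGen (fun p q => E p q ∧ q ∉ A ∧ q ≠ c ∧ p ≠ z ∧ q ≠ z) c b) (hbc : b ≠ c) :
    ∃ x, E c x ∧ x ∉ A ∧ x ≠ c ∧ x ≠ z ∧
      ReflTransGen (fun p q => E p q ∧ (p ∉ A ∧ p ≠ c ∧ p ≠ z) ∧ (q ∉ A ∧ q ≠ c ∧ q ≠ z)) x b := by
  rcases ReflTransGen.cases_head h with e | ⟨x, hx, hxb⟩
  · exact absurd e.symm hbc
  · refine ⟨x, hx.1, hx.2.1, hx.2.2.1, hx.2.2.2.2, ?_⟩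
    have key : ∀ y, (y ∉ A ∧ y ≠ c ∧ y ≠ z) →
        ReflTransGen (fun p q => E p q ∧ q ∉ A ∧ q ≠ c ∧ p ≠ z ∧ q ≠ z) y b →
        ReflTransGen (fun p q => E p q ∧ (p ∉ A ∧ p ≠ c ∧ p ≠ z) ∧ (q ∉ A ∧ q ≠ c ∧ q ≠ z)) y b := by
      intro y hy hyb
      induction hyb using ReflTransGen.head_induction_on with
      | refl => exact ReflTransGen.refl
      | head h1 _ ih =>
        exact ReflTransGen.head ⟨h1.1, hy, h1.2.1, h1.2.2.1, h1.2.2.2.2⟩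
          (ih ⟨h1.2.1, h1.2.2.1, h1.2.2.2.2⟩)
    exact key x ⟨hx.2.1, hx.2.2.1, hx.2.2.2.2⟩ hxb

/-- a good head is reached by a link through the other side -/
theorem cA_link {E : V → V → Prop} {A : Set V} {c a : V} (h : Good E A c a) (hcA : c ∉ A) :
    Link E {v | v ∉ A ∧ v ≠ c} c a := by
  have hac : a ≠ c := fun e => hcA (e ▸ h.1)
  obtain ⟨b, hbA, hbc, -, hba, hb⟩ := h.2 a hac
  obtain ⟨x, hcx, hxA, hxc, -, hx⟩ := cA_first hb hbc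
  refine Or.inr ⟨x, ⟨hxA, hxc⟩, b, ⟨hbA, hbc⟩, hcx, ?_, hba⟩
  exact ReflTransGen.mono (fun p q hpq => ⟨hpq.1, ⟨hpq.2.1.1, hpq.2.1.2.1⟩,
    ⟨hpq.2.2.1, hpq.2.2.2.1⟩⟩) _ _ hx

/-- decomposition of a path given by `menger2` -/
theorem cA_dec {E : V → V → Prop} {B P : Set V} {T : Set V} {x y : V}
    (hTB : ∀ t ∈ T, t ∉ B) (hxB : x ∈ B) (hy : y ∈ T)
    (h : ReflTransGen (Res (fun p q => E p q ∧ p ∈ B ∧ (q ∈ B ∨ q ∈ T)) P) x y) :
    y ∈ P ∧ ∃ q ∈ P ∩ B, ReflTransGen (Res E (P ∩ B)) x q ∧ E q y := by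
  have hyB := hTB y hy
  rcases ReflTransGen.cases_tail h with e | ⟨q, hq, hqy⟩
  · exact absurd (e ▸ hxB) hyB
  refine ⟨hqy.2.2, q, ⟨hqy.2.1, hqy.1.2.1⟩, ?_, hqy.1.1⟩
  have hqB := hqy.1.2.1
  clear hqy h
  induction hq with
  | refl => exact ReflTransGen.refl
  | tail h1 h2 ih =>
    exact ReflTransGen.tail (ih h2.1.2.1) ⟨h2.1.1, ⟨h2.2.1, h2.1.2.1⟩, ⟨h2.2.2, hqB⟩⟩

/-- two disjoint links -/
theorem cA_two [Finite V] {E : V → V → Prop} {A : Set V} {c a a' : V} (h : Good E A c a)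
    (h' : Good E A c a') (hcA : c ∉ A) (haa : a ≠ a') :
    ∃ I J : Set V, Disjoint I J ∧ I ⊆ {v | v ∉ A ∧ v ≠ c} ∧ J ⊆ {v | v ∉ A ∧ v ≠ c} ∧
      Link E I c a ∧ Link E J c a' := by
  have hac : a ≠ c := fun e => hcA (e ▸ h.1)
  have hac' : a' ≠ c := fun e => hcA (e ▸ h'.1)
  let B : Set V := {v | v ∉ A ∧ v ≠ c}
  let T : Set V := {a, a'}
  have hTB : ∀ t ∈ T, t ∉ B := by
    rintro t (rfl | ht) hb
    · exact hb.1 h.1
    · rw [Set.mem_singleton_iff] at ht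
      subst ht
      exact hb.1 h'.1
  have step : ∀ z w y : V, z ≠ c → y ∈ T → y ≠ w → (w = z ∨ w = c) → Good E A c y →
      ∃ x ∈ {x | x ∈ B ∧ E c x}, ∃ y ∈ T, x ≠ w ∧
        ReflTransGen (Del (fun p q => E p q ∧ p ∈ B ∧ (q ∈ B ∨ q ∈ T)) w) x y := by
    intro z w y hz hyT hyw hw hG
    obtain ⟨b, hbA, hbc, hbz, hby, hb⟩ := hG.2 z hz
    obtain ⟨x, hcx, hxA, hxc, hxz, hx⟩ := cA_first hb hbc
    have hBw : ∀ v, v ∉ A ∧ v ≠ c ∧ v ≠ z → v ≠ w := by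
      rintro v ⟨_, h2, h3⟩ rfl
      rcases hw with e | e
      · exact h3 e
      · exact h2 e
    refine ⟨x, ⟨⟨hxA, hxc⟩, hcx⟩, y, hyT, hBw x ⟨hxA, hxc, hxz⟩, ?_⟩
    refine ReflTransGen.tail (ReflTransGen.mono (fun p q hpq => ?_) _ _ hx)
      ⟨⟨hby, ⟨hbA, hbc⟩, Or.inr hyT⟩, hBw b ⟨hbA, hbc, hbz⟩, hyw⟩
    exact ⟨⟨hpq.1, ⟨hpq.2.1.1, hpq.2.1.2.1⟩, Or.inl ⟨hpq.2.2.1, hpq.2.2.2.1⟩⟩, hBw p hpq.2.1,
      hBw q hpq.2.2⟩
  obtain ⟨P₁, P₂, x₁, x₂, y₁, y₂, hd, hx₁, hx₂, hy₁, hy₂, hxP₁, hxP₂, r₁, r₂⟩ :=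
    menger2 (fun p q => E p q ∧ p ∈ B ∧ (q ∈ B ∨ q ∈ T)) {x | x ∈ B ∧ E c x} T (by
      intro z
      by_cases hzc : z = c
      · subst hzc
        exact step a z a' hac (Or.inr rfl) hac' (Or.inr rfl) h'
      by_cases hza : z = a
      · subst hza
        exact step z z a' hzc (Or.inr rfl) (Ne.symm haa) (Or.inl rfl) h'
      · exact step z z a hzc (Or.inl rfl) (Ne.symm hza) (Or.inl rfl) h) ⟨c⟩
  obtain ⟨hyP₁, q₁, hq₁, s₁, e₁⟩ := cA_dec hTB hx₁.1 hy₁ r₁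
  obtain ⟨hyP₂, q₂, hq₂, s₂, e₂⟩ := cA_dec hTB hx₂.1 hy₂ r₂
  have l₁ : Link E (P₁ ∩ B) c y₁ := Or.inr ⟨x₁, ⟨hxP₁, hx₁.1⟩, q₁, hq₁, hx₁.2, s₁, e₁⟩
  have l₂ : Link E (P₂ ∩ B) c y₂ := Or.inr ⟨x₂, ⟨hxP₂, hx₂.1⟩, q₂, hq₂, hx₂.2, s₂, e₂⟩
  have hne : y₁ ≠ y₂ := by
    rintro rfl
    exact Set.disjoint_left.1 hd hyP₁ hyP₂
  have hd' : Disjoint (P₁ ∩ B) (P₂ ∩ B) :=
    hd.mono Set.inter_subset_left Set.inter_subset_left
  rcases hy₁ with rfl | hy₁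
  · rcases hy₂ with rfl | hy₂
    · exact absurd rfl hne
    · rw [Set.mem_singleton_iff] at hy₂
      subst hy₂
      exact ⟨_, _, hd', Set.inter_subset_right, Set.inter_subset_right, l₁, l₂⟩
  · rw [Set.mem_singleton_iff] at hy₁
    subst hy₁
    rcases hy₂ with rfl | hy₂
    · exact ⟨_, _, hd'.symm, Set.inter_subset_right, Set.inter_subset_right, l₂, l₁⟩
    · rw [Set.mem_singleton_iff] at hy₂
      exact absurd hy₂.symm hne

theorem cut_A [Finite V] {E : V → V → Prop} (hC : Crit E) 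
    {A : Set V} {c : V} (hA : A.Nonempty) (hcA : c ∉ A)
    (hcl : ∀ a ∈ A, ∀ q, E a q → q ∈ A ∨ q = c)
    (hB : ∃ v, v ∉ A ∧ v ≠ c)
    (hcB : ∀ φ : V → Fin 3, (∀ u, ¬ TransGen (fun p q => (E p q ∧ (p ∈ A ∨ p = c) ∧
        (q ∈ A ∨ q = c)) ∧ φ p = φ q) u u) →
      ∃ a, Good E A c a ∧
        TransGen (fun p q => (E p q ∧ (p ∈ A ∨ p = c) ∧ (q ∈ A ∨ q = c)) ∧ φ p = φ q) a c) :
    False := by
  let F : V → V → Prop := fun p q => E p q ∨ (p = c ∧ Good E A c q)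
  let T : Set V := {p | p ∈ A ∨ p = c}
  have hT : T ≠ Set.univ := by
    obtain ⟨v, hv1, hv2⟩ := hB
    intro e
    have : v ∈ T := e ▸ Set.mem_univ v
    rcases this with h | h
    · exact hv1 h
    · exact hv2 h
  have hloop : ∀ v, ¬ F v v := by
    rintro v (h | ⟨rfl, h⟩)
    · exact hC.loop v h
    · exact hcA h.1
  have hK : HasK3 F T := by
    by_contra hn
    obtain ⟨f, hf⟩ := hC.min F T hT hloop hn
    have hsub : ∀ p q, ((E p q ∧ (p ∈ A ∨ p = c) ∧ (q ∈ A ∨ q = c)) ∧ f p = f q) →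
        (Res F T p q ∧ f p = f q) := fun p q h => ⟨⟨Or.inl h.1.1, h.1.2.1, h.1.2.2⟩, h.2⟩
    obtain ⟨a, ha, hac⟩ := hcB f (fun u hu => hf u (TransGen.mono hsub _ _ hu))
    have h1 : f a = f c := mono_const (fun p q h => h.2) hac
    refine hf a (TransGen.tail (TransGen.mono hsub _ _ hac) ⟨⟨Or.inr ⟨rfl, ha⟩, Or.inr rfl, Or.inl ha.1⟩, h1.symm⟩)
  obtain ⟨b₁, b₂, hK2⟩ := cA_out_two hK c
  have hBT : Disjoint {v | v ∉ A ∧ v ≠ c} T := by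
    rw [Set.disjoint_left]
    rintro v ⟨h1, h2⟩ (h | h)
    · exact h1 h
    · exact h2 h
  have hcT : c ∈ T := Or.inr rfl
  have one : ∀ b, Good E A c b → HasK3 (AddA E c b) T → False := by
    intro b hb hK
    exact hC.noK3 (lift_link (E' := E) hK (fun _ _ _ _ _ h => h) (cA_link hb hcA) hBT
      (Set.subset_univ _) (Set.subset_univ _) hcT (Or.inl hb.1))
  by_cases g1 : Good E A c b₁
  · by_cases g2 : Good E A c b₂
    · by_cases hbb : b₁ = b₂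
      · subst hbb
        refine one b₁ g1 (hK2.mono ?_ (subset_refl _))
        rintro p q _ _ _ ⟨h1 | h1, h2⟩
        · exact Or.inl h1
        · rcases h2 h1.1 with e | e
          · exact Or.inr ⟨h1.1, e⟩
          · exact Or.inr ⟨h1.1, e⟩
      · obtain ⟨I, J, hIJ, hI, hJ, l1, l2⟩ := cA_two g1 g2 hcA hbb
        refine hC.noK3 (lift_two (E := E) (E' := E) (S := T) (u := c) (w := b₁) (u' := c) (w' := b₂)
          (hK2.mono ?_ (subset_refl _)) (fun _ _ _ _ _ h => h) l1 l2 (hBT.mono_left hI)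
          (hBT.mono_left hJ) hIJ (Set.subset_univ _) (Set.subset_univ _) (Set.subset_univ _) hcT
          (Or.inl g1.1) hcT (Or.inl g2.1))
        rintro p q _ _ _ ⟨h1 | h1, h2⟩
        · exact Or.inl (Or.inl h1)
        · rcases h2 h1.1 with e | e
          · exact Or.inl (Or.inr ⟨h1.1, e⟩)
          · exact Or.inr ⟨h1.1, e⟩
    · refine one b₁ g1 (hK2.mono ?_ (subset_refl _))
      rintro p q _ _ _ ⟨h1 | h1, h2⟩
      · exact Or.inl h1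
      · rcases h2 h1.1 with e | e
        · exact Or.inr ⟨h1.1, e⟩
        · exact absurd (e ▸ h1.2) g2
  · by_cases g2 : Good E A c b₂
    · refine one b₂ g2 (hK2.mono ?_ (subset_refl _))
      rintro p q _ _ _ ⟨h1 | h1, h2⟩
      · exact Or.inl h1
      · rcases h2 h1.1 with e | e
        · exact absurd (e ▸ h1.2) g1
        · exact Or.inr ⟨h1.1, e⟩
    · refine hC.noK3 (hK2.mono ?_ (Set.subset_univ _))
      rintro p q _ _ _ ⟨h1 | h1, h2⟩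
      · exact h1
      · rcases h2 h1.1 with e | e
        · exact absurd (e ▸ h1.2) g1
        · exact absurd (e ▸ h1.2) g2

end Pool.Agent.MK3
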