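import Pool.Agent.MK3.Menger

set_option autoImplicit false

namespace Pool.Agent.MK3

open Relation Pool.Agent.Mader

variable {V : Type*}

/-- first exit of a walk from the set `A` -/
theorem cutM_exit {E : V → V → Prop} {A : Set V} {c : V} (hcA : c ∉ A)
    (hcl : ∀ a ∈ A, ∀ q, E a q → q ∈ A ∨ q = c) {a : V} (ha : a ∈ A)
    (h : ReflTransGen E a c) :
    ∃ y ∈ A, E y c ∧ ReflTransGen (Res E A) a y := by
  have key : ∀ v, ReflTransGen E a v → (v ∈ A ∧ ReflTransGen (Res E A) a v) ∨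
      ∃ y ∈ A, E y c ∧ ReflTransGen (Res E A) a y := by
    intro v hv
    induction hv with
    | refl => exact Or.inl ⟨ha, ReflTransGen.refl⟩
    | @tail b d _ hbd ih =>
      rcases ih with ⟨hb, hab⟩ | h
      · rcases hcl b hb d hbd with hd | hd
        · exact Or.inl ⟨hd, hab.tail ⟨hbd, hb, hd⟩⟩
        · subst hd
          exact Or.inr ⟨b, hb, hbd, hab⟩
      · exact Or.inr h
  rcases key c h with ⟨hc, _⟩ | h
  · exact absurd hc hcA
  · exact h

theorem cutM_mem {E : V → V → Prop} {P : Set V} {x y : V} (hx : x ∈ P)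
    (h : ReflTransGen (Res E P) x y) : y ∈ P := by
  induction h with
  | refl => exact hx
  | tail _ h _ => exact h.2.2

/-- Menger inside a minimal `A` -/
theorem cut_menger [Finite V] {E : V → V → Prop} (hs : ∀ u v, ReflTransGen E u v)
    {A : Set V} {c : V} (hcA : c ∉ A) (hcl : ∀ a ∈ A, ∀ q, E a q → q ∈ A ∨ q = c)
    (hB : ∃ v, v ∉ A ∧ v ≠ c)
    (hmin : ∀ (A' : Set V) (c' : V), A'.Nonempty → c' ∉ A' →
      (∀ a ∈ A', ∀ q, E a q → q ∈ A' ∨ q = c') → (∃ v, v ∉ A' ∧ v ≠ c') → A' ⊆ A → A' = A)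
    {a₁ a₂ : V} (h1 : a₁ ∈ A) (h2 : a₂ ∈ A) (h12 : a₁ ≠ a₂) :
    ∃ I J : Set V, Disjoint I J ∧ I ⊆ A ∧ J ⊆ A ∧ a₁ ∈ I ∧ a₂ ∈ J ∧
      (∃ y ∈ I, ReflTransGen (Res E I) a₁ y ∧ E y c) ∧
      (∃ y ∈ J, ReflTransGen (Res E J) a₂ y ∧ E y c) := by
  classical
  have hmen := menger2 (Res E A) {a₁, a₂} {y | y ∈ A ∧ E y c} ?_ ⟨c⟩
  · obtain ⟨P₁, P₂, x₁, x₂, y₁, y₂, hd, hx1, hx2, hy1, hy2, hxP1, hxP2, hw1, hw2⟩ := hmen
    have hx12 : x₁ ≠ x₂ := by
      rintro rfl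
      exact (Set.disjoint_left.mp hd) hxP1 hxP2
    have conv : ∀ (P : Set V) (x y : V), ReflTransGen (Res (Res E A) P) x y →
        ReflTransGen (Res E (P ∩ A)) x y := by
      intro P x y h
      have hle : Res (Res E A) P ≤ Res E (P ∩ A) := by
        rintro p q ⟨⟨hE, hp, hq⟩, hp', hq'⟩
        exact ⟨hE, ⟨hp', hp⟩, ⟨hq', hq⟩⟩
      exact ReflTransGen.mono hle _ _ h
    have hxA : ∀ x, x ∈ ({a₁, a₂} : Set V) → x ∈ A := by
      rintro x (rfl | rfl)
      · exact h1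
      · exact h2
    have w1 := conv P₁ x₁ y₁ hw1
    have w2 := conv P₂ x₂ y₂ hw2
    have m1 : x₁ ∈ P₁ ∩ A := ⟨hxP1, hxA _ hx1⟩
    have m2 : x₂ ∈ P₂ ∩ A := ⟨hxP2, hxA _ hx2⟩
    have n1 := cutM_mem m1 w1
    have n2 := cutM_mem m2 w2
    have hdd : Disjoint (P₁ ∩ A) (P₂ ∩ A) :=
      Disjoint.mono Set.inter_subset_left Set.inter_subset_left hd
    have hx1' : x₁ = a₁ ∨ x₁ = a₂ := hx1
    have hx2' : x₂ = a₁ ∨ x₂ = a₂ := hx2
    rcases hx1' with e1 | e1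
    · have e2 : x₂ = a₂ := by
        rcases hx2' with e | e
        · exact absurd (e1.trans e.symm) hx12
        · exact e
      subst e1; subst e2
      exact ⟨P₁ ∩ A, P₂ ∩ A, hdd, Set.inter_subset_right, Set.inter_subset_right, m1, m2,
        ⟨y₁, n1, w1, hy1.2⟩, ⟨y₂, n2, w2, hy2.2⟩⟩
    · have e2 : x₂ = a₁ := by
        rcases hx2' with e | e
        · exact e
        · exact absurd (e1.trans e.symm) hx12
      subst e1; subst e2
      exact ⟨P₂ ∩ A, P₁ ∩ A, hdd.symm, Set.inter_subset_right, Set.inter_subset_right, m2, m1,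
        ⟨y₂, n2, w2, hy2.2⟩, ⟨y₁, n1, w1, hy1.2⟩⟩
  · intro z
    by_cases hz : z ∈ A
    · by_contra hcon
      push Not at hcon
      let A' : Set V := {v | ∃ x, (x = a₁ ∨ x = a₂) ∧ x ≠ z ∧
        ReflTransGen (Del (Res E A) z) x v}
      have hxA : ∀ x, (x = a₁ ∨ x = a₂) → x ∈ A := by
        rintro x (rfl | rfl)
        · exact h1
        · exact h2
      have hA'A : A' ⊆ A := by
        rintro v ⟨x, hx, hxz, hw⟩
        rcases hw.cases_tail with e | ⟨b, _, hb⟩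
        · rw [e]; exact hxA x hx
        · exact hb.1.2.2
      have hzA' : z ∉ A' := by
        rintro ⟨x, hx, hxz, hw⟩
        rcases hw.cases_tail with e | ⟨b, _, hb⟩
        · exact hxz e.symm
        · exact hb.2.2 rfl
      have hne' : A'.Nonempty := by
        by_cases h : a₁ = z
        · exact ⟨a₂, a₂, Or.inr rfl, fun e => h12 (h.trans e.symm), ReflTransGen.refl⟩
        · exact ⟨a₁, a₁, Or.inl rfl, h, ReflTransGen.refl⟩
      have hcl' : ∀ a ∈ A', ∀ q, E a q → q ∈ A' ∨ q = z := by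
        intro a ha q haq
        have haA := hA'A ha
        have haz : a ≠ z := fun e => hzA' (e ▸ ha)
        obtain ⟨x, hx, hxz, hw⟩ := ha
        rcases hcl a haA q haq with hq | hq
        · by_cases hqz : q = z
          · exact Or.inr hqz
          · exact Or.inl ⟨x, hx, hxz, hw.tail ⟨⟨haq, haA, hq⟩, haz, hqz⟩⟩
        · subst hq
          exact absurd hw (hcon x hx a ⟨haA, haq⟩ hxz)
      have := hmin A' z hne' hzA' hcl' ⟨c, fun h => hcA (hA'A h), fun h => hcA (h ▸ hz)⟩ hA'A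
      exact hzA' (this ▸ hz)
    · obtain ⟨y, hy, hyc, hw⟩ := cutM_exit hcA hcl h1 (hs a₁ c)
      have hle : Res E A ≤ Del (Res E A) z := by
        rintro p q ⟨hE, hp, hq⟩
        exact ⟨⟨hE, hp, hq⟩, fun e => hz (e ▸ hp), fun e => hz (e ▸ hq)⟩
      exact ⟨a₁, Or.inl rfl, y, ⟨hy, hyc⟩, fun e => hz (e ▸ h1), ReflTransGen.mono hle _ _ hw⟩

end Pool.Agent.MK3
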