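import Pool.Agent.Mader.Basic
import Pool.Agent.Mader.Color
import Pool.Agent.Mader.Paths

set_option autoImplicit false

namespace Pool.Agent.MK3

open Relation Pool.Agent.Mader

variable {V : Type*}

/-- `Link E I x y`: there is a walk from `x` to `y` of length at least one all of whose
interior vertices lie in `I`. -/
def Link (E : V → V → Prop) (I : Set V) (x y : V) : Prop :=
  E x y ∨ ∃ p ∈ I, ∃ q ∈ I, E x p ∧ ReflTransGen (Res E I) p q ∧ E q y

/-- `E` without the vertex `z`. -/
def Del (E : V → V → Prop) (z : V) : V → V → Prop := fun p q => E p q ∧ p ≠ z ∧ q ≠ z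

/-- `E` with the arc `a → b` added. -/
def AddA (E : V → V → Prop) (a b : V) : V → V → Prop := fun p q => E p q ∨ (p = a ∧ q = b)

/-- A minimal counterexample (all proper vertex subsets with arbitrary loopless relations
without subdivision are 3-colourable). -/
structure Crit (E : V → V → Prop) : Prop where
  loop : ∀ v, ¬ E v v
  noK3 : ¬ HasK3 E Set.univ
  ncol : ¬ Col E 3
  min : ∀ (F : V → V → Prop) (T : Set V), T ≠ Set.univ → (∀ v, ¬ F v v) → ¬ HasK3 F T →
    Col (Res F T) 3

end Pool.Agent.MK3
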