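import Pool.Agent.MK3.Defs

set_option autoImplicit false

namespace Pool.Agent.MK3

open Relation Pool.Agent.Mader

variable {V : Type*}

/-- the good heads: `a ∈ A` reached from `c` through `B` around every vertex `z`. -/
def Good (E : V → V → Prop) (A : Set V) (c a : V) : Prop :=
  a ∈ A ∧ ∀ z, z ≠ c → ∃ b, b ∉ A ∧ b ≠ c ∧ b ≠ z ∧ E b a ∧
    ReflTransGen (fun p q => E p q ∧ q ∉ A ∧ q ≠ c ∧ p ≠ z ∧ q ≠ z) c b

end Pool.Agent.MK3
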